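import Pool.Agent.R993.RR.Defs

/-!
# St7: the chain of cycles in one loop of 97 steps
-/

set_option autoImplicit false
set_option exponentiation.threshold 6000

namespace R668.RR7

open Pool.Agent.R993.RR

theorem tau_le : tau ≤ 1 / 10 ^ 40 := by unfold tau; norm_num

theorem tau_pos : 0 < tau := by unfold tau; positivity

theorem B_le : B ≤ 1 / 10 ^ 500 := by unfold B; norm_num

theorem f_mono {c C : ℝ} (hc : 0 ≤ c) (h : c ≤ C) : f c ≤ f C := by
  unfold f
  rw [div_le_div_iff₀ (by positivity) (by positivity)]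
  have h2 : c ^ 2 ≤ C ^ 2 := pow_le_pow_left₀ hc h 2
  nlinarith

theorem f_inv {a : ℝ} (ha : 0 < a) : f (1 / a) = 1 / (1 + a ^ 2) := by
  unfold f
  field_simp
  ring

theorem f_le_one (x : ℝ) : f x ≤ 1 := by
  unfold f
  rw [div_le_one (by positivity)]
  linarith

theorem f_nonneg (x : ℝ) : 0 ≤ f x := by
  unfold f
  positivity

theorem U_eq (y : ℕ → ℝ) (M : ℕ) : U y M = B + y (M + 2) := rfl

theorem lo_aux {a a' : ℝ} (ha : 0 < a) (haa : (1 + a ^ 2) * (10001 / 10000) ≤ a') :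
    1 / a' ≤ (1 - tau) * f (1 / a) := by
  rw [f_inv ha]
  have ht := tau_le
  have ht0 := tau_pos
  have h1 : (0 : ℝ) < 1 + a ^ 2 := by positivity
  have h2 : 0 < a' := by nlinarith
  rw [mul_one_div, div_le_div_iff₀ h2 h1, one_mul]
  have h3 : (1 : ℝ) ≤ (1 - tau) * (10001 / 10000) := by
    have : tau ≤ 1 / 100000 := ht.trans (by norm_num)
    nlinarith
  have h4 : (0 : ℝ) ≤ 1 - tau := by
    have : tau ≤ 1 / 100000 := ht.trans (by norm_num)
    linarith
  calc 1 + a ^ 2 ≤ (1 + a ^ 2) * ((1 - tau) * (10001 / 10000)) := by nlinarith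
    _ = (1 - tau) * ((1 + a ^ 2) * (10001 / 10000)) := by ring
    _ ≤ (1 - tau) * a' := mul_le_mul_of_nonneg_left haa h4

theorem hi_aux {C : ℝ} : (1 + tau) * f C ≤ 10001 / 10000 * (C ^ 2 / (1 + C ^ 2)) := by
  have h1 : 1 + tau ≤ 10001 / 10000 := by
    have : tau ≤ 1 / 100000 := tau_le.trans (by norm_num)
    linarith
  exact mul_le_mul_of_nonneg_right h1 (f_nonneg C)

variable {y : ℕ → ℝ} {M : ℕ}

theorem lo_step (h3 : St3) (hy : IsSol y) (a a' : ℝ) (ha : 0 < a) (ha2 : a ≤ 2 ^ 1250)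
    (haa : (1 + a ^ 2) * (10001 / 10000) ≤ a') (h : Deep y M ∧ 1 / a ≤ U y M) :
    Deep y (M + 8) ∧ 1 / a' ≤ U y (M + 8) := by
  obtain ⟨hD, hU⟩ := h
  obtain ⟨-, -, -, -, -, hD', hlo, -⟩ := h3 y hy M hD
    ((one_div_le_one_div_of_le ha ha2).trans hU)
  refine ⟨hD', ?_⟩
  have h1 : f (1 / a) ≤ f (U y M) := f_mono (by positivity) hU
  have h4 : (0 : ℝ) ≤ 1 - tau := by
    have : tau ≤ 1 / 100000 := tau_le.trans (by norm_num)
    linarith
  have h5 := lo_aux ha haa
  have h6 : 1 / a' ≤ y (M + 10) := h5.trans ((mul_le_mul_of_nonneg_left h1 h4).trans hlo)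
  have h7 : U y (M + 8) = B + y (M + 10) := rfl
  rw [h7]
  have := B_pos
  linarith

theorem y_step (h3 : St3) (hy : IsSol y) (C : ℝ) (hD : Deep y M)
    (hL : 1 / 2 ^ 1250 ≤ U y M) (hU : U y M ≤ C) :
    y (M + 10) ≤ 10001 / 10000 * (C ^ 2 / (1 + C ^ 2)) := by
  obtain ⟨-, -, -, -, -, hD', -, hhi⟩ := h3 y hy M hD hL
  have h0 : 0 ≤ U y M := le_trans (by positivity) hL
  have h1 : f (U y M) ≤ f C := f_mono h0 hU
  have h4 : (0 : ℝ) ≤ 1 + tau := by linarith [tau_pos]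
  exact hhi.trans ((mul_le_mul_of_nonneg_left h1 h4).trans hi_aux)

theorem hi_step (h3 : St3) (hy : IsSol y) (C C' : ℝ) (hD : Deep y M)
    (hL : 1 / 2 ^ 1250 ≤ U y M)
    (hC : 10001 / 10000 * C ^ 2 + 1 / 10 ^ 500 * (1 + C ^ 2) ≤ C' * (1 + C ^ 2))
    (hU : U y M ≤ C) : U y (M + 8) ≤ C' := by
  have h1 := y_step h3 hy C hD hL hU
  have h7 : U y (M + 8) = B + y (M + 10) := rfl
  rw [h7]
  have h2 : (0 : ℝ) < 1 + C ^ 2 := by positivity
  have h3 : 1 / 10 ^ 500 + 10001 / 10000 * (C ^ 2 / (1 + C ^ 2)) ≤ C' := by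
    rw [← mul_div_assoc, ← sub_nonneg]
    have : C' - (1 / 10 ^ 500 + 10001 / 10000 * C ^ 2 / (1 + C ^ 2)) =
        (C' * (1 + C ^ 2) - (10001 / 10000 * C ^ 2 + 1 / 10 ^ 500 * (1 + C ^ 2))) /
          (1 + C ^ 2) := by
      generalize (1 / 10 ^ 500 : ℝ) = e
      field_simp
      ring
    rw [this]
    exact div_nonneg (by linarith) h2.le
  have := B_le
  linarith

theorem st7 (h3 : St3) (h4 : St4) : St7 := by
  intro y hy N hN
  obtain ⟨-, -, -, -, -, -, -, hD1, -, hlo, hhi⟩ := h4 y hy N hN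
  have hB := B_pos
  have hBle := B_le
  have hW1 : 1 ≤ W y N := by
    unfold W U
    rw [one_le_div hB]
    linarith [hy.pos (N + 2)]
  have hU1 : U y (N + 9) = B + y (N + 11) := rfl
  have ht : tau ≤ 1 / 100000 := tau_le.trans (by norm_num)
  have ht0 := tau_pos
  have h1mt : (0 : ℝ) ≤ 1 - tau := by linarith
  have h1pt : (0 : ℝ) ≤ 1 + tau := by linarith
  have flow : ∀ w : ℝ, 0 ≤ w → w ≤ W y N → (1 - tau) * f w ≤ U y (N + 9) := by
    intro w hw hwW
    have := mul_le_mul_of_nonneg_left (f_mono hw hwW) h1mt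
    rw [hU1]
    linarith
  have fhigh : ∀ w : ℝ, W y N ≤ w → U y (N + 9) ≤ B + (1 + tau) * f w := by
    intro w hwW
    have := mul_le_mul_of_nonneg_left (f_mono (by linarith) hwW) h1pt
    rw [hU1]
    linarith
  have c1 : Deep y (N + 9) ∧ 1 / (2001/1000) ≤ U y (N + 9) := by
    refine ⟨hD1, ?_⟩
    have h := flow 1 (by norm_num) hW1
    have hf : f 1 = 1 / 2 := by unfold f; norm_num
    rw [hf] at h
    have h2 : (1 : ℝ) / (2001/1000) = 1000 / 2001 := by norm_num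
    rw [h2]
    linarith
  have c2 : Deep y (N + 17) ∧ 1 / (5006/1000) ≤ U y (N + 17) :=
    lo_step h3 hy (2001/1000) (5006/1000) (by norm_num) (by norm_num) (by norm_num) c1
  have c3 : Deep y (N + 25) ∧ 1 / (2607/100) ≤ U y (N + 25) :=
    lo_step h3 hy (5006/1000) (2607/100) (by norm_num) (by norm_num) (by norm_num) c2
  have c4 : Deep y (N + 33) ∧ 1 / (681) ≤ U y (N + 33) :=
    lo_step h3 hy (2607/100) (681) (by norm_num) (by norm_num) (by norm_num) c3
  have c5 : Deep y (N + 41) ∧ 1 / (463900) ≤ U y (N + 41) :=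
    lo_step h3 hy (681) (463900) (by norm_num) (by norm_num) (by norm_num) c4
  have c6 : Deep y (N + 49) ∧ 1 / (216*10^9) ≤ U y (N + 49) :=
    lo_step h3 hy (463900) (216*10^9) (by norm_num) (by norm_num) (by norm_num) c5
  have c7 : Deep y (N + 57) ∧ 1 / (47*10^21) ≤ U y (N + 57) :=
    lo_step h3 hy (216*10^9) (47*10^21) (by norm_num) (by norm_num) (by norm_num) c6
  have c8 : Deep y (N + 65) ∧ 1 / (23*10^44) ≤ U y (N + 65) :=
    lo_step h3 hy (47*10^21) (23*10^44) (by norm_num) (by norm_num) (by norm_num) c7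
  have c9 : Deep y (N + 73) ∧ 1 / (53*10^89) ≤ U y (N + 73) :=
    lo_step h3 hy (23*10^44) (53*10^89) (by norm_num) (by norm_num) (by norm_num) c8
  have c10 : Deep y (N + 81) ∧ 1 / (29*10^180) ≤ U y (N + 81) :=
    lo_step h3 hy (53*10^89) (29*10^180) (by norm_num) (by norm_num) (by norm_num) c9
  have c11 : Deep y (N + 89) ∧ 1 / (85*10^361) ≤ U y (N + 89) :=
    lo_step h3 hy (29*10^180) (85*10^361) (by norm_num) (by norm_num) (by norm_num) c10
  have l1 : 1 / 2 ^ 1250 ≤ U y (N + 9) :=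
    (one_div_le_one_div_of_le (by norm_num) (by norm_num)).trans c1.2
  have l2 : 1 / 2 ^ 1250 ≤ U y (N + 17) :=
    (one_div_le_one_div_of_le (by norm_num) (by norm_num)).trans c2.2
  have l3 : 1 / 2 ^ 1250 ≤ U y (N + 25) :=
    (one_div_le_one_div_of_le (by norm_num) (by norm_num)).trans c3.2
  have l4 : 1 / 2 ^ 1250 ≤ U y (N + 33) :=
    (one_div_le_one_div_of_le (by norm_num) (by norm_num)).trans c4.2
  have l5 : 1 / 2 ^ 1250 ≤ U y (N + 41) :=
    (one_div_le_one_div_of_le (by norm_num) (by norm_num)).trans c5.2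
  have l6 : 1 / 2 ^ 1250 ≤ U y (N + 49) :=
    (one_div_le_one_div_of_le (by norm_num) (by norm_num)).trans c6.2
  have l7 : 1 / 2 ^ 1250 ≤ U y (N + 57) :=
    (one_div_le_one_div_of_le (by norm_num) (by norm_num)).trans c7.2
  have l8 : 1 / 2 ^ 1250 ≤ U y (N + 65) :=
    (one_div_le_one_div_of_le (by norm_num) (by norm_num)).trans c8.2
  have l9 : 1 / 2 ^ 1250 ≤ U y (N + 73) :=
    (one_div_le_one_div_of_le (by norm_num) (by norm_num)).trans c9.2
  have l10 : 1 / 2 ^ 1250 ≤ U y (N + 81) :=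
    (one_div_le_one_div_of_le (by norm_num) (by norm_num)).trans c10.2
  have l11 : 1 / 2 ^ 1250 ≤ U y (N + 89) :=
    (one_div_le_one_div_of_le (by norm_num) (by norm_num)).trans c11.2
  have c12 : Deep y (N + 97) := by
    obtain ⟨-, -, -, -, -, h, -, -⟩ := h3 y hy (N + 89) c11.1 l11
    exact h
  have u1 : U y (N + 9) ≤ 101/100 := by
    have h := fhigh (W y N) le_rfl
    have hf := mul_le_mul_of_nonneg_left (f_le_one (W y N)) h1pt
    have hB2 : B ≤ 1 / 1000 := hBle.trans (by norm_num)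
    linarith
  have u2 : U y (N + 17) ≤ 51/100 :=
    hi_step h3 hy (101/100) (51/100) c1.1 l1 (by norm_num) u1
  have u3 : U y (N + 25) ≤ 21/100 :=
    hi_step h3 hy (51/100) (21/100) c2.1 l2 (by norm_num) u2
  have u4 : U y (N + 33) ≤ 423/10000 :=
    hi_step h3 hy (21/100) (423/10000) c3.1 l3 (by norm_num) u3
  have u5 : U y (N + 41) ≤ 18/10000 :=
    hi_step h3 hy (423/10000) (18/10000) c4.1 l4 (by norm_num) u4
  have u6 : U y (N + 49) ≤ 33/10^7 :=
    hi_step h3 hy (18/10000) (33/10^7) c5.1 l5 (by norm_num) u5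
  have u7 : U y (N + 57) ≤ 11/10^12 :=
    hi_step h3 hy (33/10^7) (11/10^12) c6.1 l6 (by norm_num) u6
  have u8 : U y (N + 65) ≤ 13/10^23 :=
    hi_step h3 hy (11/10^12) (13/10^23) c7.1 l7 (by norm_num) u7
  have u9 : U y (N + 73) ≤ 17/10^45 :=
    hi_step h3 hy (13/10^23) (17/10^45) c8.1 l8 (by norm_num) u8
  have u10 : U y (N + 81) ≤ 3/10^88 :=
    hi_step h3 hy (17/10^45) (3/10^88) c9.1 l9 (by norm_num) u9
  have u11 : U y (N + 89) ≤ 91/10^177 :=
    hi_step h3 hy (3/10^88) (91/10^177) c10.1 l10 (by norm_num) u10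
  have u12 : U y (N + 97) ≤ 84/10^352 :=
    hi_step h3 hy (91/10^177) (84/10^352) c11.1 l11 (by norm_num) u11
  refine ⟨?_, ⟨c12, u12.trans (by norm_num)⟩, ?_, ?_, ?_⟩
  · intro j hj1 hj2
    interval_cases j
    · exact ⟨c1.1, l1, u1.trans (by norm_num)⟩
    · exact ⟨c2.1, l2, u2.trans (by norm_num)⟩
    · exact ⟨c3.1, l3, u3.trans (by norm_num)⟩
    · exact ⟨c4.1, l4, u4.trans (by norm_num)⟩
    · exact ⟨c5.1, l5, u5.trans (by norm_num)⟩
    · exact ⟨c6.1, l6, u6.trans (by norm_num)⟩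
    · exact ⟨c7.1, l7, u7.trans (by norm_num)⟩
    · exact ⟨c8.1, l8, u8.trans (by norm_num)⟩
    · exact ⟨c9.1, l9, u9.trans (by norm_num)⟩
    · exact ⟨c10.1, l10, u10.trans (by norm_num)⟩
    · exact ⟨c11.1, l11, u11.trans (by norm_num)⟩
  · intro hW
    have v1 : U y (N + 9) ≤ 6098/10000 := by
      have h := fhigh (5 / 4) hW
      have hf : f (5 / 4) = 25 / 41 := by unfold f; norm_num
      rw [hf] at h
      have hB2 : B ≤ 1 / 10 ^ 6 := hBle.trans (by norm_num)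
      have ht2 : tau ≤ 1 / 10 ^ 6 := tau_le.trans (by norm_num)
      linarith
    have v2 : U y (N + 17) ≤ 2711/10000 :=
      hi_step h3 hy (6098/10000) (2711/10000) c1.1 l1 (by norm_num) v1
    have v3 : U y (N + 25) ≤ 685/10000 :=
      hi_step h3 hy (2711/10000) (685/10000) c2.1 l2 (by norm_num) v2
    have v4 : U y (N + 33) ≤ 468/100000 :=
      hi_step h3 hy (685/10000) (468/100000) c3.1 l3 (by norm_num) v3
    have v5 : U y (N + 41) ≤ 22/10^6 :=
      hi_step h3 hy (468/100000) (22/10^6) c4.1 l4 (by norm_num) v4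
    have v6 : U y (N + 49) ≤ 49/10^11 :=
      hi_step h3 hy (22/10^6) (49/10^11) c5.1 l5 (by norm_num) v5
    have v7 : U y (N + 57) ≤ 25/10^20 :=
      hi_step h3 hy (49/10^11) (25/10^20) c6.1 l6 (by norm_num) v6
    have v8 : U y (N + 65) ≤ 63/10^39 :=
      hi_step h3 hy (25/10^20) (63/10^39) c7.1 l7 (by norm_num) v7
    have v9 : U y (N + 73) ≤ 4/10^75 :=
      hi_step h3 hy (63/10^39) (4/10^75) c8.1 l8 (by norm_num) v8
    have v10 : U y (N + 81) ≤ 17/10^150 :=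
      hi_step h3 hy (4/10^75) (17/10^150) c9.1 l9 (by norm_num) v9
    have v11 : U y (N + 89) ≤ 3/10^298 :=
      hi_step h3 hy (17/10^150) (3/10^298) c10.1 l10 (by norm_num) v10
    have h := y_step h3 hy (3/10^298) c11.1 l11 v11
    have h2 : y (N + 99) ≤ 10001 / 10000 * ((3/10^298) ^ 2 / (1 + (3/10^298) ^ 2)) := h
    refine h2.trans ?_
    unfold B
    norm_num
  · intro hW
    have k1 : Deep y (N + 9) ∧ 1 / (12501/10000) ≤ U y (N + 9) := by
      refine ⟨hD1, ?_⟩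
      have h := flow 2 (by norm_num) hW
      have hf : f 2 = 4 / 5 := by unfold f; norm_num
      rw [hf] at h
      have h2 : (1 : ℝ) / (12501/10000) = 10000 / 12501 := by norm_num
      rw [h2]
      linarith
    have k2 : Deep y (N + 17) ∧ 1 / (2564/1000) ≤ U y (N + 17) :=
      lo_step h3 hy (12501/10000) (2564/1000) (by norm_num) (by norm_num) (by norm_num) k1
    have k3 : Deep y (N + 25) ∧ 1 / (758/100) ≤ U y (N + 25) :=
      lo_step h3 hy (2564/1000) (758/100) (by norm_num) (by norm_num) (by norm_num) k2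
    have k4 : Deep y (N + 33) ∧ 1 / (585/10) ≤ U y (N + 33) :=
      lo_step h3 hy (758/100) (585/10) (by norm_num) (by norm_num) (by norm_num) k3
    have k5 : Deep y (N + 41) ∧ 1 / (3424) ≤ U y (N + 41) :=
      lo_step h3 hy (585/10) (3424) (by norm_num) (by norm_num) (by norm_num) k4
    have k6 : Deep y (N + 49) ∧ 1 / (118*10^5) ≤ U y (N + 49) :=
      lo_step h3 hy (3424) (118*10^5) (by norm_num) (by norm_num) (by norm_num) k5
    have k7 : Deep y (N + 57) ∧ 1 / (14*10^13) ≤ U y (N + 57) :=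
      lo_step h3 hy (118*10^5) (14*10^13) (by norm_num) (by norm_num) (by norm_num) k6
    have k8 : Deep y (N + 65) ∧ 1 / (2*10^28) ≤ U y (N + 65) :=
      lo_step h3 hy (14*10^13) (2*10^28) (by norm_num) (by norm_num) (by norm_num) k7
    have k9 : Deep y (N + 73) ∧ 1 / (41*10^55) ≤ U y (N + 73) :=
      lo_step h3 hy (2*10^28) (41*10^55) (by norm_num) (by norm_num) (by norm_num) k8
    have k10 : Deep y (N + 81) ∧ 1 / (17*10^112) ≤ U y (N + 81) :=
      lo_step h3 hy (41*10^55) (17*10^112) (by norm_num) (by norm_num) (by norm_num) k9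
    have k11 : Deep y (N + 89) ∧ 1 / (29*10^225) ≤ U y (N + 89) :=
      lo_step h3 hy (17*10^112) (29*10^225) (by norm_num) (by norm_num) (by norm_num) k10
    have k12 : Deep y (N + 97) ∧ 1 / (85*10^451) ≤ U y (N + 97) :=
      lo_step h3 hy (29*10^225) (85*10^451) (by norm_num) (by norm_num) (by norm_num) k11
    unfold W
    rw [le_div_iff₀ hB]
    refine le_trans ?_ k12.2
    unfold B
    norm_num
  · intro hW
    have v1 : U y (N + 9) ≤ 81 / 100 := by
      have h := fhigh 2 hW.le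
      have hf : f 2 = 4 / 5 := by unfold f; norm_num
      rw [hf] at h
      have hB2 : B ≤ 1 / 1000 := hBle.trans (by norm_num)
      linarith
    have v2 : U y (N + 17) ≤ 2 / 5 :=
      hi_step h3 hy (81 / 100) (2 / 5) c1.1 l1 (by norm_num) v1
    have v3 : U y (N + 25) ≤ 2 / 5 :=
      hi_step h3 hy (2 / 5) (2 / 5) c2.1 l2 (by norm_num) v2
    have v4 : U y (N + 33) ≤ 2 / 5 :=
      hi_step h3 hy (2 / 5) (2 / 5) c3.1 l3 (by norm_num) v3
    have v5 : U y (N + 41) ≤ 2 / 5 :=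
      hi_step h3 hy (2 / 5) (2 / 5) c4.1 l4 (by norm_num) v4
    have v6 : U y (N + 49) ≤ 2 / 5 :=
      hi_step h3 hy (2 / 5) (2 / 5) c5.1 l5 (by norm_num) v5
    have v7 : U y (N + 57) ≤ 2 / 5 :=
      hi_step h3 hy (2 / 5) (2 / 5) c6.1 l6 (by norm_num) v6
    have v8 : U y (N + 65) ≤ 2 / 5 :=
      hi_step h3 hy (2 / 5) (2 / 5) c7.1 l7 (by norm_num) v7
    have v9 : U y (N + 73) ≤ 2 / 5 :=
      hi_step h3 hy (2 / 5) (2 / 5) c8.1 l8 (by norm_num) v8
    have v10 : U y (N + 81) ≤ 2 / 5 :=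
      hi_step h3 hy (2 / 5) (2 / 5) c9.1 l9 (by norm_num) v9
    have v11 : U y (N + 89) ≤ 2 / 5 :=
      hi_step h3 hy (2 / 5) (2 / 5) c10.1 l10 (by norm_num) v10
    refine ⟨v1, ?_⟩
    intro j hj1 hj2
    interval_cases j
    · exact v2
    · exact v3
    · exact v4
    · exact v5
    · exact v6
    · exact v7
    · exact v8
    · exact v9
    · exact v10
    · exact v11

end R668.RR7
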